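import Pool.Agent.helper22.GS.Spec

/-!
# Project gs, AO: assembly in `K × K`, odd case
-/

set_option autoImplicit false

namespace Pool.Agent.GS

open Module

theorem AO_tvA {F K : Type} [Field F] [Field K] [Algebra F K] (hB : Alt (B0 F K)) (x : K) (s : F)
    (a b : K) : tv (B0 F K) ((x, 0) : K × K) s (a, b) =
      (a - (s * Algebra.trace F K (b * x)) • x, b) := by
  rw [tv_apply hB, B0_apply]
  simp only [mul_zero, zero_sub, map_neg, mul_neg, neg_smul, Prod.smul_mk, smul_zero, Prod.neg_mk,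
    neg_zero, Prod.mk_add_mk, add_zero, ← sub_eq_add_neg]

theorem AO_tvB {F K : Type} [Field F] [Field K] [Algebra F K] (hB : Alt (B0 F K)) (x : K) (s : F)
    (a b : K) : tv (B0 F K) ((0, x) : K × K) s (a, b) =
      (a, b + (s * Algebra.trace F K (a * x)) • x) := by
  rw [tv_apply hB, B0_apply]
  simp only [mul_zero, sub_zero, Prod.smul_mk, smul_zero, Prod.mk_add_mk, add_zero]

theorem AO_prodA {F K : Type} [Field F] [Field K] [Algebra F K] (hB : Alt (B0 F K)) (s s' : F) :
    ∀ (k : ℕ) (x x' : Fin k → K) (a b : K),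
    pr (B0 F K) (List.ofFn fun i : Fin k =>
      ((((x i, 0), (x' i, 0)), (s, s')) : ((K × K) × (K × K)) × (F × F))) (a, b) =
      (a - ∑ i, ((s * Algebra.trace F K (b * x i)) • x i +
        (s' * Algebra.trace F K (b * x' i)) • x' i), b) := by
  intro k
  induction k with
  | zero =>
    intro x x' a b
    unfold pr
    simp only [List.ofFn_zero, List.map_nil, List.prod_nil, Equiv.Perm.one_apply,
      Finset.univ_eq_empty, Finset.sum_empty, sub_zero]
  | succ k ih =>
    intro x x' a b
    have h := ih (fun i => x i.succ) (fun i => x' i.succ) a b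
    unfold pr at h ⊢
    rw [List.ofFn_succ, List.map_cons, List.prod_cons, Equiv.Perm.mul_apply, h,
      Equiv.Perm.mul_apply, AO_tvA hB, AO_tvA hB, Fin.sum_univ_succ]
    congr 1
    ring

theorem AO_prodB {F K : Type} [Field F] [Field K] [Algebra F K] (hB : Alt (B0 F K)) (s s' : F) :
    ∀ (k : ℕ) (x x' : Fin k → K) (a b : K),
    pr (B0 F K) (List.ofFn fun i : Fin k =>
      ((((0, x i), (0, x' i)), (s, s')) : ((K × K) × (K × K)) × (F × F))) (a, b) =
      (a, b + ∑ i, ((s * Algebra.trace F K (a * x i)) • x i +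
        (s' * Algebra.trace F K (a * x' i)) • x' i)) := by
  intro k
  induction k with
  | zero =>
    intro x x' a b
    unfold pr
    simp only [List.ofFn_zero, List.map_nil, List.prod_nil, Equiv.Perm.one_apply,
      Finset.univ_eq_empty, Finset.sum_empty, add_zero]
  | succ k ih =>
    intro x x' a b
    have h := ih (fun i => x i.succ) (fun i => x' i.succ) a b
    unfold pr at h ⊢
    rw [List.ofFn_succ, List.map_cons, List.prod_cons, Equiv.Perm.mul_apply, h,
      Equiv.Perm.mul_apply, AO_tvB hB, AO_tvB hB, Fin.sum_univ_succ]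
    congr 1
    ring

theorem AO_liA {F K ι : Type} [Field F] [Field K] [Algebra F K] (u : Basis ι F K) {i j : ι}
    (hij : i ≠ j) : LinearIndependent F ![((u i, 0) : K × K), (u j, 0)] := by
  rw [LinearIndependent.pair_iff]
  intro s t h
  have h1 : s • u i + t • u j = 0 := congrArg Prod.fst h
  have hi := congrArg (fun x => u.repr x i) h1
  have hj := congrArg (fun x => u.repr x j) h1
  simp only [map_add, map_smul, Basis.repr_self, Finsupp.add_apply, Finsupp.smul_apply,
    Finsupp.single_eq_same, smul_eq_mul, mul_one, map_zero, Finsupp.zero_apply,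
    Finsupp.single_eq_of_ne hij, Finsupp.single_eq_of_ne hij.symm, mul_zero, add_zero,
    zero_add] at hi hj
  exact ⟨hi, hj⟩

theorem AO_liB {F K ι : Type} [Field F] [Field K] [Algebra F K] (u : Basis ι F K) {i j : ι}
    (hij : i ≠ j) : LinearIndependent F ![((0, u i) : K × K), (0, u j)] := by
  rw [LinearIndependent.pair_iff]
  intro s t h
  have h1 : s • u i + t • u j = 0 := congrArg Prod.snd h
  have hi := congrArg (fun x => u.repr x i) h1
  have hj := congrArg (fun x => u.repr x j) h1
  simp only [map_add, map_smul, Basis.repr_self, Finsupp.add_apply, Finsupp.smul_apply,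
    Finsupp.single_eq_same, smul_eq_mul, mul_one, map_zero, Finsupp.zero_apply,
    Finsupp.single_eq_of_ne hij, Finsupp.single_eq_of_ne hij.symm, mul_zero, add_zero,
    zero_add] at hi hj
  exact ⟨hi, hj⟩

theorem AO_liM {F K : Type} [Field F] [Field K] [Algebra F K] {x y : K} (hx : x ≠ 0) (hy : y ≠ 0) :
    LinearIndependent F ![((x, 0) : K × K), (0, y)] := by
  rw [LinearIndependent.pair_iff]
  intro s t h
  have h1 : s • x + t • (0 : K) = 0 := congrArg Prod.fst h
  have h2 : s • (0 : K) + t • y = 0 := congrArg Prod.snd h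
  rw [smul_zero, add_zero] at h1
  rw [smul_zero, zero_add] at h2
  exact ⟨(smul_eq_zero.mp h1).resolve_right hx, (smul_eq_zero.mp h2).resolve_right hy⟩

theorem AO (bfh : BF_stmt) (ex : EX_stmt) (nk : NK_stmt) : AO_stmt := by
  intro F K _ _ _ _ _ r k σ α β τ δ δ' u w hd hτ hα hβ hδ hδ' hαβ hu hw hsq htr
  obtain ⟨-, hB, -⟩ := bfh (F := F) (K := K)
  have hdu : ∀ i : Unit ⊕ (Fin k ⊕ Fin k), nrm τ δ i ≠ 0 := by
    rintro (_ | _ | _)
    · exact hδ
    · exact one_ne_zero
    · exact neg_ne_zero.mpr hτ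
  have hdw : ∀ i : Unit ⊕ (Fin k ⊕ Fin k), nrm τ δ' i ≠ 0 := by
    rintro (_ | _ | _)
    · exact hδ'
    · exact one_ne_zero
    · exact neg_ne_zero.mpr hτ
  have exu := ex α u (nrm τ δ) hα hdu hu
  have exw := ex β w (nrm τ δ') hβ hdw hw
  let LA : List (((K × K) × (K × K)) × (F × F)) := List.ofFn fun i : Fin k =>
    (((u (.inr (.inl i)), 0), (u (.inr (.inr i)), 0)), (-1, τ⁻¹))
  let mid : ((K × K) × (K × K)) × (F × F) :=
    (((u (.inl ()), 0), (0, w (.inl ()))), (-δ⁻¹, δ'⁻¹))
  let LB : List (((K × K) × (K × K)) × (F × F)) := List.ofFn fun i : Fin k =>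
    (((0, w (.inr (.inl i))), (0, w (.inr (.inr i)))), (1, -τ⁻¹))
  refine ⟨LA ++ mid :: LB, ?_, ?_, ?_⟩
  · simp only [LA, LB, List.length_append, List.length_cons, List.length_ofFn]
    omega
  · intro t ht
    rw [List.mem_append, List.mem_cons] at ht
    rcases ht with ht | rfl | ht
    · obtain ⟨i, rfl⟩ := (List.mem_ofFn' _ _).mp ht
      refine ⟨AO_liA u (fun h => ?_), ?_, neg_ne_zero.mpr one_ne_zero, inv_ne_zero hτ, 1, ?_⟩
      · exact Sum.inl_ne_inr (Sum.inr_injective h)
      · rw [B0_apply]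
        simp only [mul_zero, zero_mul, sub_zero, map_zero]
      · change -(τ * (-1) * τ⁻¹) = 1 * 1
        field_simp
    · refine ⟨AO_liM (u.ne_zero _) (w.ne_zero _), ?_, neg_ne_zero.mpr (inv_ne_zero hδ),
        inv_ne_zero hδ', ?_⟩
      · rw [B0_apply]
        simp only [mid, mul_zero, sub_zero]
        exact htr
      · obtain ⟨e, he⟩ := hsq
        refine ⟨e * (δ * δ')⁻¹, ?_⟩
        change -(τ * (-δ⁻¹) * δ'⁻¹) = _
        have h1 : e * (δ * δ')⁻¹ * (e * (δ * δ')⁻¹) = (e * e) * ((δ * δ')⁻¹ * (δ * δ')⁻¹) := by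
          ring
        rw [h1, ← he]
        field_simp
    · obtain ⟨i, rfl⟩ := (List.mem_ofFn' _ _).mp ht
      refine ⟨AO_liB w (fun h => ?_), ?_, one_ne_zero, neg_ne_zero.mpr (inv_ne_zero hτ), 1, ?_⟩
      · exact Sum.inl_ne_inr (Sum.inr_injective h)
      · rw [B0_apply]
        simp only [mul_zero, zero_mul, sub_zero, map_zero]
      · change -(τ * 1 * -τ⁻¹) = 1 * 1
        field_simp
  · subst hαβ
    refine nk r (2 * k + 1) α β hd _ (fun a b => ?_)
    have h1 : pr (B0 F K) (LA ++ mid :: LB) = pr (B0 F K) LA *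
        ((tv (B0 F K) (u (.inl ()), 0) (-δ⁻¹) * tv (B0 F K) (0, w (.inl ())) δ'⁻¹) *
          pr (B0 F K) LB) := by
      unfold pr
      rw [List.map_append, List.map_cons, List.prod_append, List.prod_cons]
    have h2 : pr (B0 F K) LB (a, b) = _ := AO_prodB hB 1 (-τ⁻¹) k
      (fun i => w (.inr (.inl i))) (fun i => w (.inr (.inr i))) a b
    rw [h1, Equiv.Perm.mul_apply, Equiv.Perm.mul_apply, Equiv.Perm.mul_apply, h2, AO_tvB hB]
    have h3 : b + ∑ i : Fin k, ((1 * Algebra.trace F K (a * w (.inr (.inl i)))) • w (.inr (.inl i)) +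
        (-τ⁻¹ * Algebra.trace F K (a * w (.inr (.inr i)))) • w (.inr (.inr i))) +
        (δ'⁻¹ * Algebra.trace F K (a * w (.inl ()))) • w (.inl ()) = b + β * a := by
      rw [← exw a, Fintype.sum_sum_type, Fintype.sum_sum_type, Finset.sum_add_distrib]
      simp only [nrm, Finset.univ_unique, Finset.sum_singleton, inv_one, inv_neg]
      change _ = b + ((δ'⁻¹ * Algebra.trace F K (a * w (.inl ()))) • w (.inl ()) + _)
      ring
    rw [h3, AO_tvA hB]
    have h4 : ∀ a' b' : K, pr (B0 F K) LA (a', b') = _ := fun a' b' => AO_prodA hB (-1) τ⁻¹ k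
      (fun i => u (.inr (.inl i))) (fun i => u (.inr (.inr i))) a' b'
    rw [h4]
    have h5 : ∀ b' : K, a - (-δ⁻¹ * Algebra.trace F K (b' * u (.inl ()))) • u (.inl ()) -
        ∑ i : Fin k, ((-1 * Algebra.trace F K (b' * u (.inr (.inl i)))) • u (.inr (.inl i)) +
        (τ⁻¹ * Algebra.trace F K (b' * u (.inr (.inr i)))) • u (.inr (.inr i))) = a + α * b' := by
      intro b'
      rw [← exu b', Fintype.sum_sum_type, Fintype.sum_sum_type, Finset.sum_add_distrib]
      simp only [nrm, Finset.univ_unique, Finset.sum_singleton, inv_one, inv_neg, neg_mul, neg_smul,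
        Finset.sum_neg_distrib]
      change _ = a + ((δ⁻¹ * Algebra.trace F K (b' * u (.inl ()))) • u (.inl ()) + _)
      ring
    rw [h5]
    refine Prod.ext ?_ ?_
    · change a + α * (b + β * a) = (1 + α * β) * a + α * b
      ring
    · change b + β * a = β * a + b
      ring

end Pool.Agent.GS
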